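import Pool.Agent.Helper62.VX.Stm
import Pool.Agent.Helper31.BW.Loc
import Pool.Agent.Helper93.VX.Rk

/-!
# V_Loc: the local structure at a node of arbitrary thickness (after helper31's `BW/LocCore.lean`)
-/

set_option autoImplicit false
set_option linter.unusedVariables false

open Polynomial

namespace Pool.Agent.Helper90.VX

open Pool.Agent.Helper31.BW (node_syz deg_P sep_clear')
open Pool.Agent.Helper62.BM Pool.Agent.Helper62.BW Pool.Agent.Helper62.VX

variable {A : Type} [CommRing A] [IsDomain A] [CharZero A]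

/-- one step -/
theorem step (g : ℕ) (F Ft : A[X][X]) (t₀ x₀ : A) (f₁ : A[X]) (hm : f₁.Monic)
    (hdeg : f₁.natDegree + 1 = 2 * g)
    (h1 : F.map (evalRingHom t₀) = (X - C x₀) ^ 2 * f₁)
    (h2 : (f₁.map (algebraMap A (FractionRing A))).Separable) (h3 : f₁.eval x₀ ≠ 0)
    (hz : ∀ (P S : A[X][X]) (e : A[X]) (l : ℕ),
      P * F + S * derivative F = C ((X - C t₀) ^ 2 * e) * X ^ l * Ft →
        (P.map (evalRingHom t₀)).eval x₀ = 0) (l : ℕ) (e : A[X]) (P S : A[X][X])
    (hS : S.natDegree ≤ 2 * g)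
    (h : P * F + S * derivative F = C ((X - C t₀) ^ 2 * e) * X ^ l * Ft) :
    ∃ P' S' : A[X][X], S'.natDegree ≤ 2 * g ∧
      P' * F + S' * derivative F = C ((X - C t₀) * e) * X ^ l * Ft := by
  have ht : (X - C t₀ : A[X]).eval t₀ = 0 := by simp
  -- at `t₀`
  have k1 := congrArg (fun q => Polynomial.map (evalRingHom t₀) q) h
  simp only [Polynomial.map_add, Polynomial.map_mul, map_C, coe_evalRingHom, eval_mul, eval_pow,
    ht, ← derivative_map] at k1
  rw [zero_pow two_ne_zero, zero_mul, C_0, zero_mul, zero_mul, h1] at k1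
  obtain ⟨c, hc1, hc2⟩ := node_syz g x₀ f₁ _ _ hm hdeg h2 h3 (natDegree_map_le.trans hS) k1
  -- at `x₀`
  have k5 : c = 0 := by
    have k3 := hz P S e l h
    rw [hc2] at k3
    have k6 : eval x₀ (2 : A[X]) = 2 := by simp
    have k7 : c * (2 * eval x₀ f₁) = 0 := by
      simp only [eval_mul, eval_add, eval_neg, eval_C, eval_sub, eval_X, sub_self, zero_mul,
        add_zero, k6] at k3
      linear_combination -k3
    rcases mul_eq_zero.1 k7 with k8 | k8
    · exact k8
    · exact absurd k8 (mul_ne_zero two_ne_zero h3)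
  rw [k5, C_0] at hc1 hc2
  rw [zero_mul] at hc1
  rw [neg_zero, zero_mul] at hc2
  have hdiv : ∀ Q : A[X][X], Q.map (evalRingHom t₀) = 0 → C (X - C t₀) ∣ Q := by
    intro Q hQ
    rw [C_dvd_iff_dvd_coeff]
    intro i
    rw [dvd_iff_isRoot]
    have := congrArg (fun q => Polynomial.coeff q i) hQ
    rw [coeff_map, coeff_zero] at this
    exact this
  obtain ⟨P', hP'⟩ := hdiv P hc2
  obtain ⟨S', hS'⟩ := hdiv S hc1
  have hX : (X - C t₀ : A[X]) ≠ 0 := X_sub_C_ne_zero t₀
  refine ⟨P', S', ?_, ?_⟩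
  · rw [hS', natDegree_C_mul hX] at hS
    exact hS
  · have hCX : (C (X - C t₀) : A[X][X]) ≠ 0 := fun h0 => hX (C_eq_zero.1 h0)
    apply mul_left_cancel₀ hCX
    rw [hP', hS'] at h
    have e1 : (C ((X - C t₀) ^ 2 * e) : A[X][X]) = C (X - C t₀) * C ((X - C t₀) * e) := by
      rw [← C_mul]
      congr 1
      ring
    rw [e1] at h
    linear_combination h

theorem core (g : ℕ) (hg : 1 ≤ g) (F Ft : A[X][X]) (hF : F.Monic) (hFd : F.natDegree = 2 * g + 1)
    (hFt : ∀ i, Ft.coeff i = derivative (F.coeff i)) (u v : A[X][X]) (r : A[X]) (hr : r ≠ 0)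
    (huv : u * F + v * derivative F = C r) (t₀ x₀ : A) (f₁ : A[X])
    (h1 : F.map (evalRingHom t₀) = (X - C x₀) ^ 2 * f₁)
    (h2 : (f₁.map (algebraMap A (FractionRing A))).Separable) (h3 : f₁.eval x₀ ≠ 0)
    (hz : ∀ (P S : A[X][X]) (e : A[X]) (l : ℕ),
      P * F + S * derivative F = C ((X - C t₀) ^ 2 * e) * X ^ l * Ft →
        (P.map (evalRingHom t₀)).eval x₀ = 0) :
    ∃ (w : A[X]) (P S : Fin (2 * g) → A[X][X]), w.eval t₀ ≠ 0 ∧
      ∀ l : Fin (2 * g), (P l).natDegree < 2 * g ∧ (S l).natDegree ≤ 2 * g ∧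
        2 * (P l * F + S l * derivative F) = C ((X - C t₀) * (2 * w)) * X ^ (l : ℕ) * Ft := by
  classical
  have hmF : ((X - C x₀) ^ 2 * f₁).Monic := by
    rw [← h1]
    exact hF.map _
  have hm : f₁.Monic := ((monic_X_sub_C x₀).pow 2).of_mul_monic_left hmF
  have hdeg : f₁.natDegree + 1 = 2 * g := by
    have k1 : ((X - C x₀) ^ 2 * f₁).natDegree = 2 * g + 1 := by
      rw [← h1, hF.natDegree_map, hFd]
    rw [((monic_X_sub_C x₀).pow 2).natDegree_mul hm, natDegree_pow, natDegree_X_sub_C] at k1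
    omega
  have hFtd : Ft.natDegree ≤ 2 * g := by
    rw [natDegree_le_iff_coeff_eq_zero]
    intro i hi
    rw [hFt]
    rcases eq_or_ne i (2 * g + 1) with h | h
    · rw [h, ← hFd, hF.coeff_natDegree, derivative_one]
    · rw [coeff_eq_zero_of_natDegree_lt (by omega), derivative_zero]
  -- the ideal
  set I : Set A[X] := {d | ∀ l : Fin (2 * g), ∃ P S : A[X][X], S.natDegree ≤ 2 * g ∧
    P * F + S * derivative F = C d * X ^ (l : ℕ) * Ft} with hI
  have hstep : ∀ e : A[X], (X - C t₀) ^ 2 * e ∈ I → (X - C t₀) * e ∈ I := by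
    intro e he l
    obtain ⟨P, S, hS, h⟩ := he l
    exact step g F Ft t₀ x₀ f₁ hm hdeg h1 h2 h3 hz l e P S hS h
  have hrI : r ∈ I := by
    intro l
    refine ⟨u * X ^ (l : ℕ) * Ft + (v * X ^ (l : ℕ) * Ft) /ₘ F * derivative F,
      (v * X ^ (l : ℕ) * Ft) %ₘ F, ?_, ?_⟩
    · have := natDegree_modByMonic_lt (v * X ^ (l : ℕ) * Ft) hF (by
        intro h0
        rw [h0, natDegree_one] at hFd
        omega)
      omega
    · have h5 := modByMonic_add_div (v * X ^ (l : ℕ) * Ft) F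
      have h6 : C r * X ^ (l : ℕ) * Ft = (u * F + v * derivative F) * X ^ (l : ℕ) * Ft := by
        rw [huv]
      rw [h6]
      linear_combination (derivative F) * h5
  have hex : ∃ d : A[X], d ∈ I ∧ ¬ (X - C t₀) ^ 2 ∣ d := by
    have : ∀ n : ℕ, ∀ d : A[X], d ≠ 0 → d.natDegree ≤ n → d ∈ I →
        ∃ d : A[X], d ∈ I ∧ ¬ (X - C t₀) ^ 2 ∣ d := by
      intro n
      induction n with
      | zero =>
        intro d hd0 hdn hd
        refine ⟨d, hd, fun ⟨e, he⟩ => ?_⟩
        have he0 : e ≠ 0 := by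
          rintro rfl
          exact hd0 (by rw [he, mul_zero])
        have := ((monic_X_sub_C t₀).pow 2).natDegree_mul' he0
        rw [← he, natDegree_pow, natDegree_X_sub_C] at this
        omega
      | succ n ih =>
        intro d hd0 hdn hd
        by_cases hdv : (X - C t₀) ^ 2 ∣ d
        · obtain ⟨e, he⟩ := hdv
          have he0 : e ≠ 0 := by
            rintro rfl
            exact hd0 (by rw [he, mul_zero])
          have k1 := ((monic_X_sub_C t₀).pow 2).natDegree_mul' he0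
          rw [← he, natDegree_pow, natDegree_X_sub_C] at k1
          have k2 := (monic_X_sub_C t₀).natDegree_mul' he0
          rw [natDegree_X_sub_C] at k2
          exact ih ((X - C t₀) * e) (mul_ne_zero (X_sub_C_ne_zero t₀) he0) (by omega)
            (hstep e (he ▸ hd))
        · exact ⟨d, hd, hdv⟩
    exact this r.natDegree r hr le_rfl hrI
  obtain ⟨d, hd, hnd⟩ := hex
  have hfin : ∀ w : A[X], w.eval t₀ ≠ 0 → (X - C t₀) * w ∈ I →
      ∃ (w : A[X]) (P S : Fin (2 * g) → A[X][X]), w.eval t₀ ≠ 0 ∧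
      ∀ l : Fin (2 * g), (P l).natDegree < 2 * g ∧ (S l).natDegree ≤ 2 * g ∧
        2 * (P l * F + S l * derivative F) = C ((X - C t₀) * (2 * w)) * X ^ (l : ℕ) * Ft := by
    intro w hw hwI
    choose P S hS h using hwI
    refine ⟨w, P, S, hw, fun l => ⟨deg_P g hg F Ft (P l) (S l) hF hFd hFtd l l.2 (hS l) _ (h l),
      hS l, ?_⟩⟩
    rw [h l]
    have e : (C ((X - C t₀) * (2 * w)) : A[X][X]) = 2 * C ((X - C t₀) * w) := by
      have e1 : (X - C t₀) * (2 * w) = 2 * ((X - C t₀) * w) := by ring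
      have e2 : (C (2 : A[X]) : A[X][X]) = 2 := map_ofNat C 2
      rw [e1, C_mul, e2]
    rw [e]
    ring
  by_cases hdr : d.eval t₀ = 0
  · obtain ⟨w, hw⟩ := dvd_iff_isRoot.2 hdr
    refine hfin w (fun h0 => hnd ?_) (hw ▸ hd)
    obtain ⟨w', hw'⟩ := dvd_iff_isRoot.2 h0
    exact ⟨w', by rw [hw, hw']; ring⟩
  · refine hfin d hdr fun l => ?_
    obtain ⟨P, S, hS, h⟩ := hd l
    refine ⟨C (X - C t₀) * P, C (X - C t₀) * S, ?_, ?_⟩
    · exact (natDegree_C_mul_le _ _).trans hS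
    · rw [C_mul]
      linear_combination C (X - C t₀) * h


/-- **V1.** -/
theorem v_loc : V_Loc := by
  intro A _ _ _ g hg F hF t₀ x₀ f₁ hN
  obtain ⟨ν, -, hν⟩ := Pool.Agent.Helper93.VX.exists_nu hF hN
  obtain ⟨hmon, hdeg, hsep⟩ := hF
  obtain ⟨h1, h2, h3⟩ := hN
  obtain ⟨u, v, r, hr, huv⟩ := sep_clear' F hsep
  refine core g hg F (dt F) hmon hdeg (coeff_dt F) u v r hr huv t₀ x₀ f₁ h1 h2 h3 ?_
  intro P S e l h
  have h5 := hν P S ((X - Polynomial.C t₀) * e) l (by
    rw [h]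
    have e1 : (X - Polynomial.C t₀) * (2 * ((X - Polynomial.C t₀) * e)) =
        2 * ((X - Polynomial.C t₀) ^ 2 * e) := by ring
    have e2 : (Polynomial.C (2 : A[X]) : A[X][X]) = 2 := map_ofNat Polynomial.C 2
    have e3 : (Polynomial.C (2 * ((X - Polynomial.C t₀) ^ 2 * e)) : A[X][X]) =
        2 * Polynomial.C ((X - Polynomial.C t₀) ^ 2 * e) := by
      rw [Polynomial.C_mul, e2]
    rw [e1, e3]
    ring)
  rw [h5, eval_mul, eval_sub, eval_X, eval_C, sub_self, zero_mul, zero_mul, mul_zero]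

end Pool.Agent.Helper90.VX
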